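import Mathlib
import Pool.Agent.Helper602.MK.J3
import Pool.Agent.Helper403.Sieve
import Pool.Agent.K7.H23.PT.Stm

/-!
Job SV of the project PT (helper23, MP_d88658_nt): a sieve bound for the numbers without small prime
factors in the residue classes modulo `A` for which `t n` is a square modulo every prime factor of `A`.
-/

set_option autoImplicit false

namespace Pool.Agent.K7.H12.SV

open Finset
open Pool.Agent.Helper602.MK.BTLib

/-- The sieve in a single progression. -/
theorem class_bound {a q N R : ℕ} (hq : 1 ≤ q) (hR : 1 ≤ R) :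
    (((Finset.range N).filter (fun k => Nat.Coprime (PP q R) (a + k * q))).card : ℝ) ≤
      2 * ((q : ℝ) / (Nat.totient q : ℝ)) * N / Real.log ((R : ℝ) + 1) + (R : ℝ) ^ 4 := by
  have hq0 : 0 < q := hq
  have hq0' : (0 : ℝ) < q := by exact_mod_cast hq
  have hphi : (0 : ℝ) < Nat.totient q := by
    exact_mod_cast Nat.totient_pos.2 hq
  have hR' : (1 : ℝ) ≤ R := by exact_mod_cast hR
  have hinj : ∀ x ∈ Finset.range N, ∀ y ∈ Finset.range N,
      (fun k => a + k * q) x = (fun k => a + k * q) y → x = y := by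
    intro x _ y _ hxy
    simp only at hxy
    exact Nat.eq_of_mul_eq_mul_right hq0 (by omega)
  have e : (apSieve a q N R).siftedSum =
      (((Finset.range N).filter (fun k => Nat.Coprime (PP q R) (a + k * q))).card : ℝ) := by
    unfold BoundingSieve.siftedSum
    have h0 : (apSieve a q N R).support = (Finset.range N).image (fun k => a + k * q) := rfl
    rw [h0, Finset.sum_image hinj, Finset.card_filter]
    push_cast
    apply Finset.sum_congr rfl
    intro k _
    have h : (apSieve a q N R).prodPrimes = PP q R := rfl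
    have h' : (apSieve a q N R).weights (a + k * q) = 1 := rfl
    by_cases hc : Nat.Coprime (PP q R) (a + k * q)
    · rw [if_pos hc, if_pos (by rw [h]; exact hc), h']
    · rw [if_neg hc, if_neg (by rw [h]; exact hc)]
  rw [← e]
  have h2 := siftedSum_le_selberg (apSieve a q N R) (R : ℝ) hR' 1 zero_le_one
    (fun d hd => apSieve_rem hq0 hd)
  have h3 := selS_ge_log (a := a) (N := N) (R := R) hq
  have hlog : 0 < Real.log ((R : ℝ) + 1) := Real.log_pos (by linarith)
  have h4 : (apSieve a q N R).totalMass / selS (apSieve a q N R) R ≤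
      2 * ((q : ℝ) / (Nat.totient q : ℝ)) * N / Real.log ((R : ℝ) + 1) := by
    change (N : ℝ) / _ ≤ _
    have : (N : ℝ) / selS (apSieve a q N R) R ≤
        (N : ℝ) / (Real.log ((R : ℝ) + 1) / (2 * ((q : ℝ) / (Nat.totient q : ℝ)))) := by
      apply div_le_div_of_nonneg_left (by positivity) (by positivity) h3
    refine this.trans (le_of_eq ?_)
    field_simp
  have h5 : (∑ d ∈ (Nat.divisors (apSieve a q N R).prodPrimes).filter (fun d : ℕ => (d : ℝ) ≤ R),
      ((apSieve a q N R).nu d)⁻¹) ≤ (R : ℝ) ^ 2 := by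
    have h6 : (Nat.divisors (apSieve a q N R).prodPrimes).filter (fun d : ℕ => (d : ℝ) ≤ R) ⊆
        Finset.Icc 1 R := by
      intro d hd
      rw [Finset.mem_filter, Nat.mem_divisors] at hd
      rw [Finset.mem_Icc]
      refine ⟨Nat.pos_of_ne_zero (ne_zero_of_dvd_ne_zero hd.1.2 hd.1.1), by exact_mod_cast hd.2⟩
    calc (∑ d ∈ (Nat.divisors (apSieve a q N R).prodPrimes).filter (fun d : ℕ => (d : ℝ) ≤ R),
          ((apSieve a q N R).nu d)⁻¹)
        = ∑ d ∈ (Nat.divisors (apSieve a q N R).prodPrimes).filter (fun d : ℕ => (d : ℝ) ≤ R),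
          (d : ℝ) := by
          apply Finset.sum_congr rfl
          intro d _
          change ((d : ℝ)⁻¹)⁻¹ = d
          rw [inv_inv]
      _ ≤ ∑ d ∈ Finset.Icc 1 R, (d : ℝ) :=
          Finset.sum_le_sum_of_subset_of_nonneg h6 (fun _ _ _ => by positivity)
      _ ≤ ∑ d ∈ Finset.Icc 1 R, (R : ℝ) := by
          apply Finset.sum_le_sum
          intro d hd
          exact_mod_cast (Finset.mem_Icc.mp hd).2
      _ = (R : ℝ) ^ 2 := by simp; ring
  have h7 : 0 ≤ (∑ d ∈ (Nat.divisors (apSieve a q N R).prodPrimes).filter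
      (fun d : ℕ => (d : ℝ) ≤ R), ((apSieve a q N R).nu d)⁻¹) := by
    apply Finset.sum_nonneg
    intro d _
    change 0 ≤ ((d : ℝ)⁻¹)⁻¹
    positivity
  have h8 : (∑ d ∈ (Nat.divisors (apSieve a q N R).prodPrimes).filter (fun d : ℕ => (d : ℝ) ≤ R),
      ((apSieve a q N R).nu d)⁻¹) ^ 2 ≤ (R : ℝ) ^ 4 := by
    calc _ ≤ ((R : ℝ) ^ 2) ^ 2 := by gcongr
      _ = (R : ℝ) ^ 4 := by ring
  linarith

open Classical in
/-- the local indicator function -/
noncomputable def loc (t : ℤ) (p a : ℕ) : ℝ :=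
  if ¬ p ∣ a ∧ IsSquare ((t * a : ℤ) : ZMod p) then 1 else 0

theorem loc_periodic (t : ℤ) (p : ℕ) : Function.Periodic (loc t p) p := by
  intro a
  have h1 : (p ∣ a + p) ↔ p ∣ a := by simp
  have h2 : ((t * ((a + p : ℕ) : ℤ) : ℤ) : ZMod p) = ((t * a : ℤ) : ZMod p) := by
    push_cast
    simp
  have h3 : (¬ p ∣ (a + p) ∧ IsSquare ((t * ((a + p : ℕ) : ℤ) : ℤ) : ZMod p)) =
      (¬ p ∣ a ∧ IsSquare ((t * a : ℤ) : ZMod p)) := by
    rw [h2, h1]
  unfold loc
  by_cases hc : (¬ p ∣ a ∧ IsSquare ((t * a : ℤ) : ZMod p))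
  · rw [if_pos hc, if_pos (h3 ▸ hc)]
  · rw [if_neg hc, if_neg (h3 ▸ hc)]

theorem sum_loc (t : ℤ) (p : ℕ) (hp : p.Prime) (hodd : p ≠ 2) (ht : ¬ (p : ℤ) ∣ t) :
    ∑ a ∈ range p, loc t p a = ((p : ℝ) - 1) / 2 := by
  classical
  have : Fact p.Prime := ⟨hp⟩
  have ht0 : ((t : ℤ) : ZMod p) ≠ 0 := by
    rw [Ne, ZMod.intCast_zmod_eq_zero_iff_dvd]
    exact ht
  have h0 : ∑ a ∈ range p, loc t p a = ∑ x : ZMod p,
      (if x ≠ 0 ∧ IsSquare (((t : ℤ) : ZMod p) * x) then (1 : ℝ) else 0) := by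
    symm
    refine Finset.sum_nbij (fun x : ZMod p => x.val) ?_ ?_ ?_ ?_
    · intro x _
      simp only [Finset.mem_range]
      exact ZMod.val_lt x
    · intro x _ y _ hxy
      exact ZMod.val_injective p hxy
    · intro a ha
      simp only [Finset.coe_range, Set.mem_Iio] at ha
      refine ⟨(a : ZMod p), Finset.mem_coe.mpr (Finset.mem_univ _), ?_⟩
      exact ZMod.val_cast_of_lt ha
    · intro x _
      unfold loc
      have h1 : (¬ p ∣ x.val) ↔ x ≠ 0 := by
        rw [not_iff_not, ← ZMod.natCast_eq_zero_iff, ZMod.natCast_zmod_val]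
      have h2 : ((t * (x.val : ℕ) : ℤ) : ZMod p) = ((t : ℤ) : ZMod p) * x := by
        push_cast
        rw [ZMod.natCast_zmod_val]
      rw [h2]
      simp only [h1]
  rw [h0]
  have h1 : ∀ x : ZMod p, (if x ≠ 0 ∧ IsSquare (((t : ℤ) : ZMod p) * x) then (1 : ℝ) else 0) =
      (1 + ((quadraticChar (ZMod p) ((t : ℤ) : ZMod p) : ℤ) : ℝ) *
        ((quadraticChar (ZMod p) x : ℤ) : ℝ)) / 2 - (if x = 0 then 1 / 2 else 0) := by
    intro x
    by_cases hx : x = 0
    · subst hx
      simp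
    · have hm : ((quadraticChar (ZMod p) ((t : ℤ) : ZMod p) : ℤ) : ℝ) *
        ((quadraticChar (ZMod p) x : ℤ) : ℝ) =
          ((quadraticChar (ZMod p) (((t : ℤ) : ZMod p) * x) : ℤ) : ℝ) := by
        rw [map_mul]
        push_cast
        ring
      rw [hm]
      have hne : ((t : ℤ) : ZMod p) * x ≠ 0 := mul_ne_zero ht0 hx
      by_cases hs : IsSquare (((t : ℤ) : ZMod p) * x)
      · rw [if_pos ⟨hx, hs⟩, (quadraticChar_one_iff_isSquare hne).mpr hs, if_neg hx]
        norm_num
      · rw [if_neg (fun h => hs h.2), quadraticChar_neg_one_iff_not_isSquare.mpr hs, if_neg hx]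
        norm_num
  rw [Finset.sum_congr rfl (fun x _ => h1 x), Finset.sum_sub_distrib, ← Finset.sum_div,
    Finset.sum_add_distrib, ← Finset.mul_sum]
  have h2 : ∑ x : ZMod p, ((quadraticChar (ZMod p) x : ℤ) : ℝ) = 0 := by
    have h3 := quadraticChar_sum_zero (F := ZMod p) (by rwa [ZMod.ringChar_zmod_n])
    exact_mod_cast h3
  rw [h2]
  simp [ZMod.card]
  ring

/-- The number of the classes. -/
theorem classes (A : ℕ) (t : ℤ) (hA : Squarefree A) (hodd : Odd A)
    (ht : ∀ p : ℕ, p.Prime → p ∣ A → ¬ (p : ℤ) ∣ t) :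
    ∑ a ∈ range A, ∏ p ∈ A.primeFactors, loc t p a =
      (Nat.totient A : ℝ) / 2 ^ A.primeFactors.card := by
  have h1 := Pool.Agent.Helper403.sum_prod_periodic A.primeFactors
    (fun l hl => Nat.prime_of_mem_primeFactors hl) (loc t) (fun l _ => loc_periodic t l)
  rw [Nat.prod_primeFactors_of_squarefree hA] at h1
  rw [h1]
  have h2 : ∀ l ∈ A.primeFactors, ∑ a ∈ range l, loc t l a = ((l : ℝ) - 1) / 2 := by
    intro l hl
    have hlp := Nat.prime_of_mem_primeFactors hl
    have hld := Nat.dvd_of_mem_primeFactors hl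
    refine sum_loc t l hlp ?_ (ht l hlp hld)
    rintro rfl
    exact (Nat.not_even_iff_odd.mpr hodd) (even_iff_two_dvd.mpr hld)
  rw [Finset.prod_congr rfl h2, Finset.prod_div_distrib, Finset.prod_const]
  congr 1
  have h3 : Nat.totient A = ∏ p ∈ A.primeFactors, (p - 1) := by
    have h4 := Nat.totient_eq_prod_factorization hA.ne_zero
    rw [h4, Finsupp.prod]
    rw [Nat.support_factorization]
    apply Finset.prod_congr rfl
    intro p hp
    have h5 : A.factorization p = 1 := by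
      have h6 := (Nat.squarefree_iff_factorization_le_one hA.ne_zero).mp hA p
      have h7 : A.factorization p ≠ 0 := by
        rw [← Finsupp.mem_support_iff, Nat.support_factorization]
        exact hp
      omega
    rw [h5]
    simp
  rw [h3]
  push_cast
  apply Finset.prod_congr rfl
  intro p hp
  have := (Nat.prime_of_mem_primeFactors hp).one_le
  push_cast [Nat.cast_sub this]
  ring

theorem loc_nonneg (t : ℤ) (p a : ℕ) : 0 ≤ loc t p a := by
  unfold loc
  split_ifs <;> norm_num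

open Classical in
/-- The decomposition into classes. -/
theorem card_le (z A B : ℕ) (t : ℤ) (R : ℕ) (hA0 : 0 < A) (hRz : R ≤ z)
    (hAp : ∀ p : ℕ, p.Prime → p ∣ A → p ≤ z) :
    (Set.ncard {n : ℕ | 1 ≤ n ∧ n ≤ B ∧ (∀ p : ℕ, p.Prime → p ≤ z → ¬ p ∣ n) ∧
      ∀ p : ℕ, p.Prime → p ∣ A → IsSquare ((t * n : ℤ) : ZMod p)} : ℝ) ≤
    ∑ a ∈ range A, (∏ p ∈ A.primeFactors, loc t p a) *
      (((Finset.range (B / A + 1)).filter
        (fun k => Nat.Coprime (PP A R) (a + k * A))).card : ℝ) := by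
  set S : Finset ℕ := (Finset.Icc 1 B).filter (fun n =>
    (∀ p : ℕ, p.Prime → p ≤ z → ¬ p ∣ n) ∧
      ∀ p : ℕ, p.Prime → p ∣ A → IsSquare ((t * n : ℤ) : ZMod p)) with hS
  have h0 : {n : ℕ | 1 ≤ n ∧ n ≤ B ∧ (∀ p : ℕ, p.Prime → p ≤ z → ¬ p ∣ n) ∧
      ∀ p : ℕ, p.Prime → p ∣ A → IsSquare ((t * n : ℤ) : ZMod p)} = (S : Set ℕ) := by
    ext n
    rw [hS]
    simp only [Finset.coe_filter, Finset.mem_Icc, Set.mem_ofPred_eq]
    tauto
  rw [h0, Set.ncard_coe_finset]
  have h1 : S.card = ∑ a ∈ range A, (S.filter (fun n => n % A = a)).card :=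
    Finset.card_eq_sum_card_fiberwise (fun n _ => by
      simp only [Finset.coe_range, Set.mem_Iio]
      exact Nat.mod_lt _ hA0)
  rw [h1]
  push_cast
  apply Finset.sum_le_sum
  intro a ha
  rcases (S.filter (fun n => n % A = a)).eq_empty_or_nonempty with he | ⟨n, hn⟩
  · rw [he]
    simp only [Finset.card_empty, Nat.cast_zero]
    exact mul_nonneg (Finset.prod_nonneg fun p _ => loc_nonneg t p a) (by positivity)
  · have hn' := hn
    rw [Finset.mem_filter, hS, Finset.mem_filter] at hn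
    obtain ⟨⟨_, hn2, hn3⟩, hn4⟩ := hn
    have h2 : ∏ p ∈ A.primeFactors, loc t p a = 1 := by
      apply Finset.prod_eq_one
      intro p hp
      have hpp := Nat.prime_of_mem_primeFactors hp
      have hpd := Nat.dvd_of_mem_primeFactors hp
      have hmod : n ≡ a [MOD p] := by
        have h3 : n ≡ a [MOD A] := by
          rw [Nat.ModEq, hn4, Nat.mod_eq_of_lt (Finset.mem_range.mp ha)]
        exact h3.of_dvd hpd
      unfold loc
      rw [if_pos]
      constructor
      · intro h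
        exact hn2 p hpp (hAp p hpp hpd) ((hmod.dvd_iff dvd_rfl).mpr h)
      · have h3 := hn3 p hpp hpd
        have h4 : ((t * n : ℤ) : ZMod p) = ((t * a : ℤ) : ZMod p) := by
          push_cast
          rw [(ZMod.natCast_eq_natCast_iff n a p).mpr hmod]
        rwa [h4] at h3
    rw [h2, one_mul]
    norm_cast
    apply Finset.card_le_card_of_injOn (fun n => n / A)
    · intro m hm
      have hm' := Finset.mem_coe.mp hm
      rw [Finset.mem_filter, hS, Finset.mem_filter, Finset.mem_Icc] at hm'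
      obtain ⟨⟨hm1, hm2, hm3⟩, hm4⟩ := hm'
      rw [Finset.mem_coe, Finset.mem_filter, Finset.mem_range]
      refine ⟨Nat.lt_succ_of_le (Nat.div_le_div_right hm1.2), ?_⟩
      have h5 : a + m / A * A = m := by
        rw [← hm4]
        have := Nat.div_add_mod m A
        rw [mul_comm A] at this
        omega
      rw [h5]
      apply Nat.coprime_of_dvd
      intro p hp hpd hpm
      exact hm2 p hp (((prime_dvd_PP hp).mp hpd).1.trans hRz) hpm
    · intro x hx y hy hxy
      have hx' := (Finset.mem_filter.mp (Finset.mem_coe.mp hx)).2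
      have hy' := (Finset.mem_filter.mp (Finset.mem_coe.mp hy)).2
      simp only at hxy
      rw [← Nat.div_add_mod x A, ← Nat.div_add_mod y A, hx', hy', hxy]

theorem main : Pool.Agent.K7.H23.PT.StSV := by
  classical
  refine ⟨9, by norm_num, ?_⟩
  intro z A B t hz hA hodd hAp hAB
  have hA0 : 0 < A := Nat.pos_of_ne_zero hA.ne_zero
  set R := Nat.sqrt z with hRdef
  have hR : 1 ≤ R := by
    rw [hRdef, Nat.one_le_iff_ne_zero, Ne, Nat.sqrt_eq_zero]
    omega
  have hRz : R ≤ z := Nat.sqrt_le_self z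
  have hR2 : R * R ≤ z := Nat.sqrt_le z
  have hR3 : z < (R + 1) * (R + 1) := Nat.lt_succ_sqrt z
  have h1 := card_le z A B t R hA0 hRz (fun p hp hd => (hAp p hp hd).1)
  have h2 := classes A t hA hodd (fun p hp hd => (hAp p hp hd).2)
  have hAr : (0 : ℝ) < A := by exact_mod_cast hA0
  have hphi : (0 : ℝ) < Nat.totient A := by exact_mod_cast Nat.totient_pos.2 hA0
  have hphi2 : (Nat.totient A : ℝ) ≤ A := by exact_mod_cast Nat.totient_le A
  have hzr : (2 : ℝ) ≤ z := by exact_mod_cast hz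
  have hlz : 0 < Real.log z := Real.log_pos (by linarith)
  have hlR : Real.log z / 2 ≤ Real.log ((R : ℝ) + 1) := by
    have h3 : (z : ℝ) ≤ ((R : ℝ) + 1) ^ 2 := by
      rw [sq]
      exact_mod_cast hR3.le
    have h4 := Real.log_le_log (by linarith) h3
    rw [Real.log_pow] at h4
    push_cast at h4
    linarith
  set W : ℝ := (2 : ℝ) ^ A.primeFactors.card with hW
  have hW0 : 0 < W := by rw [hW]; positivity
  set N : ℕ := B / A + 1 with hN
  have hBA : A ≤ B := by
    calc A = A * 1 := (mul_one A).symm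
      _ ≤ A * z ^ 4 := Nat.mul_le_mul_left A (Nat.one_le_pow _ _ (by omega))
      _ ≤ B := hAB
  have hBr : (A : ℝ) ≤ B := by exact_mod_cast hBA
  have hNA : (A : ℝ) * N ≤ 2 * B := by
    have h3 : A * N ≤ 2 * B := by
      rw [hN, mul_add, mul_one]
      have := Nat.mul_div_le B A
      omega
    exact_mod_cast h3
  have h5 : ∀ a : ℕ, (((Finset.range N).filter
      (fun k => Nat.Coprime (PP A R) (a + k * A))).card : ℝ) ≤
        4 * ((A : ℝ) / (Nat.totient A : ℝ)) * N / Real.log z + (z : ℝ) ^ 2 := by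
    intro a
    have h6 := class_bound (a := a) (q := A) (N := N) (R := R) hA0 hR
    refine h6.trans ?_
    have h7 : 2 * ((A : ℝ) / (Nat.totient A : ℝ)) * N / Real.log ((R : ℝ) + 1) ≤
        4 * ((A : ℝ) / (Nat.totient A : ℝ)) * N / Real.log z := by
      have h8 : 2 * ((A : ℝ) / (Nat.totient A : ℝ)) * N / Real.log ((R : ℝ) + 1) ≤
          2 * ((A : ℝ) / (Nat.totient A : ℝ)) * N / (Real.log z / 2) := by
        apply div_le_div_of_nonneg_left (by positivity) (by positivity) hlR
      refine h8.trans (le_of_eq ?_)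
      field_simp
      ring
    have h9 : (R : ℝ) ^ 4 ≤ (z : ℝ) ^ 2 := by
      have h10 : (R : ℝ) * R ≤ z := by exact_mod_cast hR2
      calc (R : ℝ) ^ 4 = ((R : ℝ) * R) ^ 2 := by ring
        _ ≤ (z : ℝ) ^ 2 := by gcongr
    linarith
  have h6 : ∑ a ∈ range A, (∏ p ∈ A.primeFactors, loc t p a) *
      (((Finset.range N).filter
        (fun k => Nat.Coprime (PP A R) (a + k * A))).card : ℝ) ≤
      ((Nat.totient A : ℝ) / W) *
        (4 * ((A : ℝ) / (Nat.totient A : ℝ)) * N / Real.log z + (z : ℝ) ^ 2) := by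
    rw [← h2, Finset.sum_mul]
    apply Finset.sum_le_sum
    intro a _
    exact mul_le_mul_of_nonneg_left (h5 a) (Finset.prod_nonneg fun p _ => loc_nonneg t p a)
  refine (h1.trans h6).trans ?_
  have h7 : ((Nat.totient A : ℝ) / W) *
        (4 * ((A : ℝ) / (Nat.totient A : ℝ)) * N / Real.log z + (z : ℝ) ^ 2) =
      4 * (A * N) / (W * Real.log z) + (Nat.totient A : ℝ) * (z : ℝ) ^ 2 / W := by
    field_simp
  rw [h7]
  have h8 : 4 * ((A : ℝ) * N) / (W * Real.log z) ≤ 8 * B / (W * Real.log z) := by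
    apply div_le_div_of_nonneg_right _ (by positivity)
    linarith
  have h9 : (Nat.totient A : ℝ) * (z : ℝ) ^ 2 / W ≤ B / (W * Real.log z) := by
    rw [div_le_div_iff₀ hW0 (by positivity)]
    have h10 : Real.log z ≤ z := by
      have := Real.log_le_sub_one_of_pos (show (0 : ℝ) < z by linarith)
      linarith
    have h11 : (Nat.totient A : ℝ) * (z : ℝ) ^ 2 * Real.log z ≤ B := by
      have hABr : (A : ℝ) * (z : ℝ) ^ 4 ≤ B := by exact_mod_cast hAB
      calc (Nat.totient A : ℝ) * (z : ℝ) ^ 2 * Real.log z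
          ≤ (A : ℝ) * (z : ℝ) ^ 2 * z := by gcongr
        _ ≤ (A : ℝ) * (z : ℝ) ^ 2 * (z : ℝ) ^ 2 := by
            gcongr
            nlinarith
        _ = (A : ℝ) * (z : ℝ) ^ 4 := by ring
        _ ≤ B := hABr
    calc (Nat.totient A : ℝ) * (z : ℝ) ^ 2 * (W * Real.log z)
        = ((Nat.totient A : ℝ) * (z : ℝ) ^ 2 * Real.log z) * W := by ring
      _ ≤ B * W := by gcongr
  calc 4 * ((A : ℝ) * N) / (W * Real.log z) + (Nat.totient A : ℝ) * (z : ℝ) ^ 2 / W
      ≤ 8 * B / (W * Real.log z) + B / (W * Real.log z) := add_le_add h8 h9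
    _ = 9 * B / (W * Real.log z) := by ring

end Pool.Agent.K7.H12.SV
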